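import Pool.Agent.Q289.EC.ZO

/-!
Growth rates which do not depend on the beginning of a sequence.
-/

set_option autoImplicit false

namespace Pool.Agent.Q289.EC

open H974 Finset H342P H984P H984H MeasureTheory Filter Topology Asymptotics

/-- Regular functions. -/
structure Reg (w : ℕ → ℝ) : Prop where
  top : Tendsto w atTop atTop
  slow : ∀ j : ℕ, (fun n => w (j + n)) ~[atTop] w

theorem Reg.pos {w : ℕ → ℝ} (h : Reg w) : ∀ᶠ n in atTop, 0 < w n := h.top.eventually_gt_atTop 0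

theorem Reg.compare {w : ℕ → ℝ} (h : Reg w) (k k' : ℕ) {K K' c : ℝ} (hK : K < K') :
    ∀ᶠ n in atTop, K * w (k + n) + c ≤ K' * w (k' + n) := by
  have h1 : Tendsto (fun n => w (k + n) / w n) atTop (𝓝 1) :=
    (isEquivalent_iff_tendsto_one (h.pos.mono fun n hn => hn.ne')).1 (h.slow k)
  have h2 : Tendsto (fun n => w (k' + n) / w n) atTop (𝓝 1) :=
    (isEquivalent_iff_tendsto_one (h.pos.mono fun n hn => hn.ne')).1 (h.slow k')
  have h3 : Tendsto (fun n => c / w n) atTop (𝓝 0) := h.top.const_div_atTop c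
  have h4 : Tendsto (fun n => K * (w (k + n) / w n) + c / w n - K' * (w (k' + n) / w n)) atTop
      (𝓝 (K * 1 + 0 - K' * 1)) := ((h1.const_mul K).add h3).sub (h2.const_mul K')
  have h5 : K * 1 + 0 - K' * 1 < 0 := by linarith
  filter_upwards [h4.eventually (gt_mem_nhds h5), h.pos] with n hn hp
  have e : K * (w (k + n) / w n) + c / w n - K' * (w (k' + n) / w n) =
      (K * w (k + n) + c - K' * w (k' + n)) / w n := by field_simp
  rw [e, div_lt_iff₀ hp] at hn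
  linarith

theorem ev_shift {w f f' : ℕ → ℝ} (h : Reg w) (k k' : ℕ) {c K : ℝ}
    (hf : ∀ n, f' (k' + n) ≤ f (k + n) + c) (hK : ∃ K', K' < K ∧ ∀ᶠ n in atTop, f n ≤ K' * w n) :
    ∃ K', K' < K ∧ ∀ᶠ n in atTop, f' n ≤ K' * w n := by
  obtain ⟨K', hK', hev⟩ := hK
  refine ⟨(K' + K) / 2, by linarith, ?_⟩
  have h1 := h.compare k k' (K := K') (K' := (K' + K) / 2) (c := c) (by linarith)
  have h2 : ∀ᶠ n in atTop, f (k + n) ≤ K' * w (k + n) :=
    (tendsto_atTop_mono (fun n => Nat.le_add_left n k) tendsto_id).eventually hev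
  have h3 : ∀ᶠ n in atTop, f' (k' + n) ≤ (K' + K) / 2 * w (k' + n) := by
    filter_upwards [h1, h2] with n g1 g2
    linarith [hf n]
  rw [eventually_atTop] at h3 ⊢
  obtain ⟨N, hN⟩ := h3
  refine ⟨k' + N, fun n hn => ?_⟩
  obtain ⟨m, rfl⟩ := Nat.exists_eq_add_of_le (show k' ≤ n by omega)
  exact hN m (by omega)

theorem fr_shift {w f f' : ℕ → ℝ} (h : Reg w) (k k' : ℕ) {c K : ℝ}
    (hf : ∀ n, f' (k' + n) ≤ f (k + n) + c) (hK : ∃ K', K' < K ∧ ∃ᶠ n in atTop, f n ≤ K' * w n) :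
    ∃ K', K' < K ∧ ∃ᶠ n in atTop, f' n ≤ K' * w n := by
  obtain ⟨K', hK', hfr⟩ := hK
  refine ⟨(K' + K) / 2, by linarith, ?_⟩
  have h1 := h.compare k k' (K := K') (K' := (K' + K) / 2) (c := c) (by linarith)
  rw [frequently_atTop] at hfr ⊢
  rw [eventually_atTop] at h1
  obtain ⟨N, hN⟩ := h1
  intro M
  obtain ⟨b, hb, hb2⟩ := hfr (k + max N M)
  obtain ⟨m, rfl⟩ := Nat.exists_eq_add_of_le (show k ≤ b by omega)
  refine ⟨k' + m, by omega, ?_⟩
  have := hN m (by omega)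
  linarith [hf m]

/-! ### the functionals -/

/-- Distance of a state from the origin. -/
noncomputable def dO (σ : ℕ → St) (n : ℕ) : ℝ := ‖place (σ n)‖

/-- Greatest distance. -/
noncomputable def rch (σ : ℕ → St) (n : ℕ) : ℝ :=
  (Finset.range (n + 1)).sup' Finset.nonempty_range_add_one (fun k => ‖place (σ k)‖)

theorem rch_le {σ : ℕ → St} {n : ℕ} {x : ℝ} : rch σ n ≤ x ↔ ∀ j ≤ n, ‖place (σ j)‖ ≤ x := by
  unfold rch
  rw [Finset.sup'_le_iff]
  constructor
  · intro h j hj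
    exact h j (Finset.mem_range.2 (by omega))
  · intro h j hj
    exact h j (by rw [Finset.mem_range] at hj; omega)

theorem le_rch (σ : ℕ → St) {j n : ℕ} (h : j ≤ n) : ‖place (σ j)‖ ≤ rch σ n :=
  rch_le.1 le_rfl j h

theorem rch_nonneg (σ : ℕ → St) (n : ℕ) : 0 ≤ rch σ n := (norm_nonneg _).trans (le_rch σ le_rfl)

theorem rch_shift {σ σ' : ℕ → St} {k k' : ℕ} (h : ∀ n, σ (k + n) = σ' (k' + n)) (n : ℕ) :
    rch σ' (k' + n) ≤ rch σ (k + n) + rch σ' k' := by
  rw [rch_le]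
  intro j hj
  rcases le_total j k' with h1 | h1
  · have := le_rch σ' h1
    have := rch_nonneg σ (k + n)
    linarith
  · obtain ⟨m, rfl⟩ := Nat.exists_eq_add_of_le h1
    rw [← h m]
    have := le_rch σ (show k + m ≤ k + n by omega)
    have := rch_nonneg σ' k'
    linarith

/-- The upper growth rate is less than `K`. -/
def Q1 (w : ℕ → ℝ) (K : ℝ) : Set (ℕ → St) :=
  {σ | ∃ K', K' < K ∧ ∀ᶠ n in atTop, dO σ n ≤ K' * w n}

/-- The lower growth rate of the greatest distance is less than `K`. -/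
def Q2 (w : ℕ → ℝ) (K : ℝ) : Set (ℕ → St) :=
  {σ | ∃ K', K' < K ∧ ∃ᶠ n in atTop, rch σ n ≤ K' * w n}

theorem Q1_inv {w : ℕ → ℝ} (h : Reg w) (K : ℝ) : Inv (Q1 w K) := by
  rintro σ σ' ⟨k, k', hk⟩ hσ
  refine ev_shift h k k' (c := 0) (fun n => ?_) hσ
  show ‖place (σ' (k' + n))‖ ≤ ‖place (σ (k + n))‖ + 0
  rw [hk n, add_zero]

theorem Q2_inv {w : ℕ → ℝ} (h : Reg w) (K : ℝ) : Inv (Q2 w K) := by
  rintro σ σ' ⟨k, k', hk⟩ hσ
  exact fr_shift h k k' (c := rch σ' k') (fun n => rch_shift hk n) hσ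

theorem Q1_mono (w : ℕ → ℝ) {K K' : ℝ} (h : K ≤ K') : Q1 w K ⊆ Q1 w K' := by
  rintro σ ⟨L, h1, h2⟩
  exact ⟨L, h1.trans_le h, h2⟩

theorem Q2_mono (w : ℕ → ℝ) {K K' : ℝ} (h : K ≤ K') : Q2 w K ⊆ Q2 w K' := by
  rintro σ ⟨L, h1, h2⟩
  exact ⟨L, h1.trans_le h, h2⟩

theorem dO_meas (n : ℕ) : Measurable (fun ω => dO (path ω) n) :=
  Perc_meas_dep n (fun p => dO p n) (fun p p' h => by
    show ‖place (p n)‖ = ‖place (p' n)‖
    rw [h n le_rfl])

theorem rch_meas (n : ℕ) : Measurable (fun ω => rch (path ω) n) :=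
  Perc_meas_dep n (fun p => rch p n) (fun p p' h => by
    unfold rch
    apply Finset.sup'_congr _ rfl
    intro k hk
    rw [h k (by rw [Finset.mem_range] at hk; omega)])

theorem ev_meas {f : ℕ → Conf → ℝ} (hf : ∀ n, Measurable (f n)) {w : ℕ → ℝ} (hw : Reg w) (K : ℝ) :
    MeasurableSet {ω | ∃ K', K' < K ∧ ∀ᶠ n in atTop, f n ω ≤ K' * w n} := by
  have e : {ω | ∃ K', K' < K ∧ ∀ᶠ n in atTop, f n ω ≤ K' * w n} =
      ⋃ m : ℕ, ⋃ N : ℕ, ⋂ n : ℕ, ⋂ (_ : N ≤ n), {ω | f n ω ≤ (K - 1 / ((m : ℝ) + 1)) * w n} := by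
    ext ω
    simp only [Set.mem_iUnion, Set.mem_iInter, Set.mem_ofPred_eq]
    constructor
    · rintro ⟨K', hK', h⟩
      obtain ⟨m, hm⟩ := exists_nat_one_div_lt (sub_pos.2 hK')
      obtain ⟨N, hN⟩ := eventually_atTop.1 (h.and hw.pos)
      refine ⟨m, N, fun n hn => (hN n hn).1.trans ?_⟩
      apply mul_le_mul_of_nonneg_right _ (hN n hn).2.le
      linarith
    · rintro ⟨m, N, h⟩
      refine ⟨K - 1 / ((m : ℝ) + 1), ?_, eventually_atTop.2 ⟨N, h⟩⟩
      have : (0:ℝ) < 1 / ((m : ℝ) + 1) := by positivity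
      linarith
  rw [e]
  exact MeasurableSet.iUnion fun m => MeasurableSet.iUnion fun N => MeasurableSet.iInter fun n =>
    MeasurableSet.iInter fun _ => measurableSet_le (hf n) measurable_const

theorem fr_meas {f : ℕ → Conf → ℝ} (hf : ∀ n, Measurable (f n)) {w : ℕ → ℝ} (hw : Reg w) (K : ℝ) :
    MeasurableSet {ω | ∃ K', K' < K ∧ ∃ᶠ n in atTop, f n ω ≤ K' * w n} := by
  have e : {ω | ∃ K', K' < K ∧ ∃ᶠ n in atTop, f n ω ≤ K' * w n} =
      ⋃ m : ℕ, ⋂ N : ℕ, ⋃ n : ℕ, ⋃ (_ : N ≤ n), {ω | f n ω ≤ (K - 1 / ((m : ℝ) + 1)) * w n} := by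
    ext ω
    simp only [Set.mem_iUnion, Set.mem_iInter, Set.mem_ofPred_eq]
    constructor
    · rintro ⟨K', hK', h⟩
      obtain ⟨m, hm⟩ := exists_nat_one_div_lt (sub_pos.2 hK')
      refine ⟨m, fun N => ?_⟩
      obtain ⟨n, hn, h1, h2⟩ := frequently_atTop.1 (h.and_eventually hw.pos) N
      refine ⟨n, hn, h1.trans ?_⟩
      apply mul_le_mul_of_nonneg_right _ h2.le
      linarith
    · rintro ⟨m, h⟩
      refine ⟨K - 1 / ((m : ℝ) + 1), ?_, frequently_atTop.2 fun N => ?_⟩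
      · have : (0:ℝ) < 1 / ((m : ℝ) + 1) := by positivity
        linarith
      · obtain ⟨n, hn, h1⟩ := h N
        exact ⟨n, hn, h1⟩
  rw [e]
  exact MeasurableSet.iUnion fun m => MeasurableSet.iInter fun N => MeasurableSet.iUnion fun n =>
    MeasurableSet.iUnion fun _ => measurableSet_le (hf n) measurable_const

/-- Deterministic constants. -/
theorem exists_const {Q : ℝ → Set (ℕ → St)} (hmono : ∀ K K', K ≤ K' → Q K ⊆ Q K')
    (hinv : ∀ K, Inv (Q K)) (hm : ∀ K, MeasurableSet {ω | path ω ∈ Q K}) {c C : ℝ}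
    (hC : ∀ K, C < K → ∀ᵐ ω ∂perc, path ω ∈ Q K) (hc : ∀ K, K < c → ∀ᵐ ω ∂perc, path ω ∉ Q K) :
    ∃ L : ℝ, c ≤ L ∧ L ≤ C ∧ ∀ᵐ ω ∂perc, (∀ K, L < K → path ω ∈ Q K) ∧
      ∀ K, K < L → path ω ∉ Q K := by
  obtain ⟨S, hS⟩ : ∃ S : Set ℝ, S = {K | perc {ω | path ω ∈ Q K} = 1} := ⟨_, rfl⟩
  have hCS : ∀ K, C < K → K ∈ S := by
    intro K hK
    rw [hS]
    show perc {ω | path ω ∈ Q K} = 1
    rw [← prob_compl_eq_zero_iff (hm K)]
    exact hC K hK
  have hlow : ∀ K ∈ S, c ≤ K := by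
    intro K hK
    by_contra hcon
    rw [hS] at hK
    have h1 : perc {ω | path ω ∈ Q K} = 1 := hK
    have h2 : perc {ω | path ω ∈ Q K} = 0 :=
      measure_eq_zero_iff_ae_notMem.2 (hc K (not_le.1 hcon))
    rw [h2] at h1
    exact zero_ne_one h1
  have hne : S.Nonempty := ⟨C + 1, hCS _ (by linarith)⟩
  have hbdd : BddBelow S := ⟨c, hlow⟩
  refine ⟨sInf S, le_csInf hne hlow, ?_, ?_⟩
  · apply le_of_forall_pos_lt_add
    intro ε hε
    have := csInf_le hbdd (hCS (C + ε / 2) (by linarith))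
    linarith
  have up : ∀ K, sInf S < K → ∀ᵐ ω ∂perc, path ω ∈ Q K := by
    intro K hK
    obtain ⟨K', hK', hlt⟩ := (csInf_lt_iff hbdd hne).1 hK
    rw [hS] at hK'
    have h1 : perc {ω | path ω ∈ Q K'} = 1 := hK'
    rw [← prob_compl_eq_zero_iff (hm K')] at h1
    have h2 : ∀ᵐ ω ∂perc, path ω ∈ Q K' := h1
    filter_upwards [h2] with ω hω
    exact hmono _ _ hlt.le hω
  have lo : ∀ K, K < sInf S → ∀ᵐ ω ∂perc, path ω ∉ Q K := by
    intro K hK
    rcases zero_one_path (hinv K) (hm K) with h | h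
    · exact measure_eq_zero_iff_ae_notMem.1 h
    · have : K ∈ S := by rw [hS]; exact h
      exact absurd (csInf_le hbdd this) (not_le.2 hK)
  have h1 : ∀ᵐ ω ∂perc, ∀ m : ℕ, path ω ∈ Q (sInf S + 1 / ((m : ℝ) + 1)) := by
    rw [ae_all_iff]
    intro m
    apply up
    have : (0:ℝ) < 1 / ((m : ℝ) + 1) := by positivity
    linarith
  have h2 : ∀ᵐ ω ∂perc, ∀ m : ℕ, path ω ∉ Q (sInf S - 1 / ((m : ℝ) + 1)) := by
    rw [ae_all_iff]
    intro m
    apply lo
    have : (0:ℝ) < 1 / ((m : ℝ) + 1) := by positivity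
    linarith
  filter_upwards [h1, h2] with ω g1 g2
  refine ⟨fun K hK => ?_, fun K hK => ?_⟩
  · obtain ⟨m, hm⟩ := exists_nat_one_div_lt (sub_pos.2 hK)
    exact hmono _ _ (by linarith) (g1 m)
  · obtain ⟨m, hm⟩ := exists_nat_one_div_lt (sub_pos.2 hK)
    intro hcon
    exact g2 m (hmono _ _ (by linarith) hcon)

/-! ### the rates -/

theorem ll_slow (j : ℕ) : (fun n : ℕ => Real.log (Real.log ((j + n : ℕ) : ℝ))) ~[atTop]
    (fun n : ℕ => Real.log (Real.log (n : ℝ))) ∧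
    (fun n : ℕ => (((j + n : ℕ) : ℝ))) ~[atTop] (fun n : ℕ => (n : ℝ)) := by
  have h0 : (fun n : ℕ => (((j + n : ℕ) : ℝ))) ~[atTop] (fun n : ℕ => (n : ℝ)) := by
    rw [isEquivalent_iff_tendsto_one]
    · have h1 : Tendsto (fun n : ℕ => (j : ℝ) / n + 1) atTop (𝓝 (0 + 1)) :=
        (tendsto_const_div_atTop_nhds_zero_nat _).add tendsto_const_nhds
      rw [zero_add] at h1
      refine h1.congr' ?_
      filter_upwards [eventually_gt_atTop 0] with n hn
      have : (n : ℝ) ≠ 0 := by positivity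
      simp only [Pi.div_apply]
      push_cast
      field_simp
    · filter_upwards [eventually_gt_atTop 0] with n hn
      positivity
  have h1 := h0.log tendsto_natCast_atTop_atTop
  exact ⟨h1.log (Real.tendsto_log_atTop.comp tendsto_natCast_atTop_atTop), h0⟩

theorem ll_top : Tendsto (fun n : ℕ => Real.log (Real.log (n : ℝ))) atTop atTop :=
  Real.tendsto_log_atTop.comp (Real.tendsto_log_atTop.comp tendsto_natCast_atTop_atTop)

theorem rpow_slow (j : ℕ) (a : ℝ) : (fun n : ℕ => ((j + n : ℕ) : ℝ) ^ a) ~[atTop]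
    (fun n : ℕ => (n : ℝ) ^ a) :=
  (ll_slow j).2.rpow (fun n => Nat.cast_nonneg n)

theorem llrpow_slow (j : ℕ) (b : ℝ) :
    (fun n : ℕ => Real.log (Real.log ((j + n : ℕ) : ℝ)) ^ b) ~[atTop]
    (fun n : ℕ => Real.log (Real.log (n : ℝ)) ^ b) := by
  have h1 : (fun n : ℕ => max (Real.log (Real.log ((j + n : ℕ) : ℝ))) 0) ~[atTop]
      (fun n : ℕ => max (Real.log (Real.log (n : ℝ))) 0) := by
    refine ((ll_slow j).1.congr_left ?_).congr_right ?_
    · have := (tendsto_atTop_mono (fun n => Nat.le_add_left n j) tendsto_id).eventually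
        (ll_top.eventually_ge_atTop 0)
      filter_upwards [this] with n hn
      exact (max_eq_left hn).symm
    · filter_upwards [ll_top.eventually_ge_atTop 0] with n hn
      exact (max_eq_left hn).symm
  have h2 := h1.rpow (r := b) (fun n => le_max_right _ _)
  refine (h2.congr_left ?_).congr_right ?_
  · have := (tendsto_atTop_mono (fun n => Nat.le_add_left n j) tendsto_id).eventually
      (ll_top.eventually_ge_atTop 0)
    filter_upwards [this] with n hn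
    simp only [Pi.pow_apply]
    rw [max_eq_left hn]
  · filter_upwards [ll_top.eventually_ge_atTop 0] with n hn
    simp only [Pi.pow_apply, Pi.zero_apply]
    rw [max_eq_left hn]

/-- The upper rate. -/
noncomputable def w1 (n : ℕ) : ℝ := (n : ℝ) ^ (4/7 : ℝ) * Real.log (Real.log n) ^ (3/7 : ℝ)

/-- The lower rate. -/
noncomputable def w2 (n : ℕ) : ℝ := (n : ℝ) ^ (4/7 : ℝ) / Real.log (Real.log n) ^ (1/14 : ℝ)

theorem w1_reg : Reg w1 := by
  refine ⟨?_, fun j => ?_⟩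
  · exact ((tendsto_rpow_atTop (by norm_num)).comp tendsto_natCast_atTop_atTop).atTop_mul_atTop₀
      ((tendsto_rpow_atTop (by norm_num)).comp ll_top)
  · exact (rpow_slow j (4/7)).mul (llrpow_slow j (3/7))

theorem w2_reg : Reg w2 := by
  refine ⟨?_, fun j => ?_⟩
  · -- `w2 n ≥ n ^ (1/2)` for large `n`
    have h1 : ∀ᶠ n : ℕ in atTop, (n : ℝ) ^ (1/2 : ℝ) ≤ w2 n := by
      have h2 : ∀ᶠ n : ℕ in atTop, Real.log (Real.log n) ^ (1/14 : ℝ) ≤ (n : ℝ) ^ (1/14 : ℝ) := by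
        filter_upwards [ll_top.eventually_ge_atTop 0, eventually_ge_atTop 3] with n hn hn3
        apply Real.rpow_le_rpow hn _ (by norm_num)
        have h3 : (3:ℝ) ≤ n := by exact_mod_cast hn3
        have h4 : Real.log n ≤ n := (Real.log_le_sub_one_of_pos (by linarith)).trans (by linarith)
        have h5 : 0 < Real.log n := Real.log_pos (by linarith)
        exact (Real.log_le_sub_one_of_pos h5).trans (by linarith)
      filter_upwards [h2, ll_top.eventually_gt_atTop 0, eventually_ge_atTop 1] with n g1 g2 g3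
      unfold w2
      rw [le_div_iff₀ (by positivity)]
      have h3 : (0:ℝ) < n := by exact_mod_cast (by omega : 0 < n)
      have e : (n : ℝ) ^ (4/7 : ℝ) = (n : ℝ) ^ (1/2 : ℝ) * (n : ℝ) ^ (1/14 : ℝ) := by
        rw [← Real.rpow_add h3]
        norm_num
      rw [e]
      exact mul_le_mul_of_nonneg_left g1 (by positivity)
    exact tendsto_atTop_mono' _ h1
      ((tendsto_rpow_atTop (by norm_num)).comp tendsto_natCast_atTop_atTop)
  · exact (rpow_slow j (4/7)).div (llrpow_slow j (1/14))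

end Pool.Agent.Q289.EC
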