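import Pool.Agent.H984R4.HN.Ret
import Pool.Agent.H984R4.HN.Couple

/-!
The exploration path of the half-plane forgets the configuration of a finite box up to a shift of
time.
-/

set_option autoImplicit false

namespace Pool.Agent.Q289.EC

open H974 Finset H342P H984P H984H MeasureTheory

/-- The planar fact: the part of the negative half-axis beyond a vertex of the cluster is not
connected to infinity on the side of the origin. -/
theorem planar2 {ω : Conf} {r R : ℤ} (hr : 0 ≤ r) (hrR : r < R)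
    (hS : ∀ v ∈ Ret_S ω r, sd v (0, 0) < R) {x x2 : ℤ} (hx : x2 < 0) (hxx2 : x < x2)
    (h1 : ((x, 0) : Vtx) ∈ Ret_S ω r)
    (h2 : ((x2, 0) : Vtx) ∈ Ret_T ω r R) : False := by
  obtain ⟨-, hxS, w, hw, hreach⟩ := h2
  obtain ⟨u0, hu0, hu0', hπ⟩ := h1
  have hbox : ∀ v : Vtx, sd v (0, 0) ≤ r → 0 ≤ v.2 → v ∈ Ret_S ω r := fun v h h' => ⟨v, h, h', Reach.refl _ _⟩
  have hx1 : x2 < -r := by
    by_contra hcon
    apply hxS
    apply hbox _ _ le_rfl
    rw [Ret_sd]
    simp only [abs_zero]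
    apply max_le _ hr
    rw [abs_le]
    omega
  have hu0S := hbox u0 hu0 hu0'
  have hxx : ((x, 0) : Vtx) ∈ Ret_S ω r := ⟨u0, hu0, hu0', hπ⟩
  have habs : ∀ v : Vtx, sd v (0, 0) < R → (-R < v.1 ∧ v.1 < R) ∧ (-R < v.2 ∧ v.2 < R) := by
    intro v hv
    rw [Ret_sd, max_lt_iff, abs_lt, abs_lt] at hv
    exact hv
  have hSb : ∀ v ∈ Ret_S ω r, (-R < v.1 ∧ v.1 < R) ∧ (0 ≤ v.2 ∧ v.2 < R) := fun v hv =>
    ⟨(habs v (hS v hv)).1, Ret_S_nonneg hv, (habs v (hS v hv)).2.2⟩
  obtain ⟨⟨hxb1, -⟩, -⟩ := hSb _ hxx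
  simp only at hxb1
  have hu0r : (-r ≤ u0.1 ∧ u0.1 ≤ r) ∧ u0.2 ≤ r := by
    rw [Ret_sd, max_le_iff, abs_le, abs_le] at hu0
    exact ⟨hu0.1, hu0.2.2⟩
  set S' : Set Vtx := {v | v ∈ Ret_S ω r ∨ (v.2 = -1 ∧ v.1 ≤ x) ∨ (v.2 = -1 ∧ -r ≤ v.1)} with hS'
  set T' : Set Vtx := {v | (0 ≤ v.2 ∧ v ∉ Ret_S ω r) ∨ (v.2 = -1 ∧ x < v.1 ∧ v.1 < -r) ∨ v.2 = -2} with hT'
  have hdis : Disjoint S' T' := by
    rw [Set.disjoint_left]
    rintro v (h | ⟨h, h'⟩ | ⟨h, h'⟩) (k | ⟨k, k', k''⟩ | k)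
    · exact k.2 h
    · have := Ret_S_nonneg h; omega
    · have := Ret_S_nonneg h; omega
    all_goals omega
  -- the left-right path
  have p1 : Reach (Ret_E S' ∩ ↑(RE (-R) R (-2) R)) (-R, -1) (x, -1) := by
    apply Ret_row' (by omega)
    intro i hi1 hi2
    refine ⟨⟨Or.inr (Or.inl ⟨rfl, by simp only [src_mk]; omega⟩), Or.inr (Or.inl ⟨by simp, by simp only [tgt_true]; omega⟩)⟩, ?_⟩
    rw [Finset.mem_coe, mem_RE_true]; omega
  have p2 : Reach (Ret_E S' ∩ ↑(RE (-R) R (-2) R)) (x, -1) (x, 0) := by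
    apply Ret_col' (by omega)
    intro i hi1 hi2
    have : i = -1 := by omega
    subst this
    refine ⟨⟨Or.inr (Or.inl ⟨rfl, le_rfl⟩), Or.inl (by simpa using hxx)⟩, ?_⟩
    rw [Finset.mem_coe, mem_RE_false]; omega
  have hin : ∀ u v : Vtx, Reach (Ret_E (Ret_S ω r)) u v → Reach (Ret_E S' ∩ ↑(RE (-R) R (-2) R)) u v := by
    intro u v h
    refine h.mono ?_
    rintro e ⟨he1, he2⟩
    refine ⟨⟨Or.inl he1, Or.inl he2⟩, ?_⟩
    have b1 := hSb _ he1
    have b2 := hSb _ he2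
    obtain ⟨a, b, _ | _⟩ := e
    · simp only [src_mk, tgt_false] at b1 b2
      rw [Finset.mem_coe, mem_RE_false]; omega
    · simp only [src_mk, tgt_true] at b1 b2
      rw [Finset.mem_coe, mem_RE_true]; omega
  have p3 : Reach (Ret_E S' ∩ ↑(RE (-R) R (-2) R)) u0 (x, 0) := hin _ _ (Ret_S_path hu0S hπ).1
  have p4 : Reach (Ret_E S' ∩ ↑(RE (-R) R (-2) R)) (u0.1, -1) (u0.1, u0.2) := by
    apply Ret_col' (by omega)
    intro i hi1 hi2
    have hmem : ∀ j : ℤ, -1 ≤ j → j ≤ u0.2 → ((u0.1, j) : Vtx) ∈ S' := by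
      intro j hj1 hj2
      rcases eq_or_lt_of_le hj1 with h | h
      · right; right
        exact ⟨h.symm, hu0r.1.1⟩
      · left
        apply hbox _ _ (by simp only; omega)
        rw [Ret_sd]
        simp only
        apply max_le
        · rw [abs_le]; exact hu0r.1
        · rw [abs_le]; omega
    refine ⟨⟨hmem i hi1 (by omega), by rw [tgt_false]; exact hmem (i + 1) (by omega) (by omega)⟩, ?_⟩
    rw [Finset.mem_coe, mem_RE_false]; omega
  have p5 : Reach (Ret_E S' ∩ ↑(RE (-R) R (-2) R)) (u0.1, -1) (R, -1) := by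
    apply Ret_row' (by omega)
    intro i hi1 hi2
    refine ⟨⟨Or.inr (Or.inr ⟨rfl, by simp only [src_mk]; omega⟩), Or.inr (Or.inr ⟨by simp, by simp only [tgt_true]; omega⟩)⟩, ?_⟩
    rw [Finset.mem_coe, mem_RE_true]; omega
  have pLR : Reach (Ret_E S' ∩ ↑(RE (-R) R (-2) R)) (-R, -1) (R, -1) :=
    p1.trans (p2.trans (p3.symm.trans (p4.symm.trans p5)))
  -- the bottom-top path
  have q1 : Reach (Ret_E T' ∩ ↑(RE (-R) R (-2) R)) (x2, -2) (x2, 0) := by
    apply Ret_col' (by omega)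
    intro i hi1 hi2
    have hmem : ∀ j : ℤ, -2 ≤ j → j ≤ 0 → ((x2, j) : Vtx) ∈ T' := by
      intro j hj1 hj2
      rcases (by omega : j = -2 ∨ j = -1 ∨ j = 0) with h | h | h
      · right; right; exact h
      · right; left; exact ⟨h, by simp only; omega, by simp only; omega⟩
      · left; subst h; exact ⟨le_rfl, hxS⟩
    refine ⟨⟨hmem i hi1 (by omega), by rw [tgt_false]; exact hmem (i + 1) (by omega) (by omega)⟩, ?_⟩
    rw [Finset.mem_coe, mem_RE_false]; omega
  -- exit from the box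
  have hw' : w.1 ≤ -R ∨ R ≤ w.1 ∨ w.2 ≤ -2 ∨ R ≤ w.2 := by
    have hw0 : 0 ≤ w.2 := by
      have : ∀ v, Reach {e : Edg | 0 ≤ e.2.1 ∧ src e ∉ Ret_S ω r ∧ tgt e ∉ Ret_S ω r} (x2, 0) v → 0 ≤ v.2 := by
        intro v hv
        induction hv with
        | refl => exact le_rfl
        | @tail a a' _ hs ih =>
          obtain ⟨⟨x', y', b⟩, he, hc⟩ := hs
          have h0 : 0 ≤ y' := he.1
          cases b
          · simp only [src_mk, tgt_false] at hc
            rcases hc with ⟨h1, h2⟩ | ⟨h1, h2⟩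
            · rw [← h2]; simp only; omega
            · rw [← h1]; exact h0
          · simp only [src_mk, tgt_true] at hc
            rcases hc with ⟨h1, h2⟩ | ⟨h1, h2⟩
            · rw [← h2]; exact h0
            · rw [← h1]; exact h0
      exact this w hreach
    rw [Ret_sd, le_max_iff, le_abs, le_abs] at hw
    omega
  obtain ⟨z, hz1, hz2, hz3⟩ := first_exit (a := -R) (b := R) (c := -2) (d := R) (u := ((x2, 0) : Vtx))
    (by unfold inR; simp only; omega) hreach hw'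
  have hzz : ∀ v, Reach ({e : Edg | 0 ≤ e.2.1 ∧ src e ∉ Ret_S ω r ∧ tgt e ∉ Ret_S ω r} ∩ ↑(RE (-R) R (-2) R))
      (x2, 0) v → Reach (Ret_E T' ∩ ↑(RE (-R) R (-2) R)) (x2, 0) v ∧ 0 ≤ v.2 := by
    intro v hv
    induction hv with
    | refl => exact ⟨Reach.refl _ _, le_rfl⟩
    | @tail a a' _ hs ih =>
      obtain ⟨e, ⟨he, heR⟩, hc⟩ := hs
      have he' : e ∈ Ret_E T' := by
        obtain ⟨h0, hs, ht⟩ := he
        obtain ⟨x', y', _ | _⟩ := e
        · exact ⟨Or.inl ⟨h0, hs⟩, Or.inl ⟨by simp only [tgt_false] at h0 ⊢; omega, ht⟩⟩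
        · exact ⟨Or.inl ⟨h0, hs⟩, Or.inl ⟨h0, ht⟩⟩
      refine ⟨ih.1.trans (Adj.reach ⟨e, ⟨he', heR⟩, hc⟩), ?_⟩
      have h0 : 0 ≤ e.2.1 := he.1
      obtain ⟨x', y', _ | _⟩ := e
      · simp only [src_mk, tgt_false] at hc h0
        rcases hc with ⟨h1, h2⟩ | ⟨h1, h2⟩
        · rw [← h2]; simp only; omega
        · rw [← h1]; exact h0
      · simp only [src_mk, tgt_true] at hc h0
        rcases hc with ⟨h1, h2⟩ | ⟨h1, h2⟩
        · rw [← h2]; exact h0
        · rw [← h1]; exact h0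
  obtain ⟨hz4, hz5⟩ := hzz z hz3
  obtain ⟨⟨hz6, hz7⟩, hz8, hz9⟩ := hz1
  have q3 : Reach (Ret_E T' ∩ ↑(RE (-R) R (-2) R)) (z.1, z.2) (z.1, R) := by
    rcases hz2 with h | h | h | h
    · apply Ret_col' hz9
      intro i hi1 hi2
      have hmem : ∀ j : ℤ, 0 ≤ j → ((z.1, j) : Vtx) ∈ T' := by
        intro j hj
        left
        refine ⟨hj, fun hc => ?_⟩
        have := (hSb _ hc).1
        simp only at this
        omega
      refine ⟨⟨hmem i (by omega), by rw [tgt_false]; exact hmem (i + 1) (by omega)⟩, ?_⟩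
      rw [Finset.mem_coe, mem_RE_false]; omega
    · apply Ret_col' hz9
      intro i hi1 hi2
      have hmem : ∀ j : ℤ, 0 ≤ j → ((z.1, j) : Vtx) ∈ T' := by
        intro j hj
        left
        refine ⟨hj, fun hc => ?_⟩
        have := (hSb _ hc).1
        simp only at this
        omega
      refine ⟨⟨hmem i (by omega), by rw [tgt_false]; exact hmem (i + 1) (by omega)⟩, ?_⟩
      rw [Finset.mem_coe, mem_RE_false]; omega
    · omega
    · rw [h]; exact Reach.refl _ _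
  exact Ret_no_cross hdis (by omega) (by omega) pLR rfl rfl (q1.trans (hz4.trans q3)) rfl rfl

/-- Both ends of the edge are in the box. -/
def InB (r : ℤ) (e : Edg) : Prop := sd (src e) (0, 0) ≤ r ∧ sd (tgt e) (0, 0) ≤ r

/-- The configurations agree outside the box. -/
def Agree (r : ℤ) (ω ω' : Conf) : Prop := ∀ e : Edg, ¬ InB r e → ω e = ω' e

theorem Agree.symm {r : ℤ} {ω ω' : Conf} (h : Agree r ω ω') : Agree r ω' ω :=
  fun e he => (h e he).symm

theorem retS_sub {r : ℤ} {ω ω' : Conf} (h : Agree r ω ω') : Ret_S ω r ⊆ Ret_S ω' r := by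
  rintro v ⟨u, hu, hu0, hr⟩
  have key : ∀ w, Reach (Ret_O ω) u w → w ∈ Ret_S ω' r := by
    intro w hw
    induction hw with
    | refl => exact ⟨u, hu, hu0, Reach.refl _ _⟩
    | @tail w w' hw1 hs ih =>
      have hw0 := Ret_O_nonneg hu0 hw1
      obtain ⟨e, he, hc⟩ := hs
      have hw'0 : 0 ≤ w'.2 := Ret_O_nonneg hw0 (Adj.reach ⟨e, he, hc⟩)
      by_cases hin : InB r e
      · refine ⟨w', ?_, hw'0, Reach.refl _ _⟩
        rcases hc with ⟨h1, h2⟩ | ⟨h1, h2⟩
        · rw [← h2]; exact hin.2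
        · rw [← h1]; exact hin.1
      · refine Ret_S_closed ih ⟨e, ⟨he.1, he.2.1, ?_⟩, hc⟩
        rw [← h e hin]
        exact he.2.2
  exact key v hr

theorem retS_eq {r : ℤ} {ω ω' : Conf} (h : Agree r ω ω') : Ret_S ω r = Ret_S ω' r :=
  Set.Subset.antisymm (retS_sub h) (retS_sub h.symm)

theorem retT_eq {r R : ℤ} {ω ω' : Conf} (h : Agree r ω ω') : Ret_T ω r R = Ret_T ω' r R := by
  unfold Ret_T
  rw [retS_eq h]

/-- A step to the west. -/
theorem step_west (G : Set Edg) (σ : St) (h : (step G σ).1 = (σ.1.1 - 1, σ.1.2)) :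
    step G σ = ((σ.1.1 - 1, σ.1.2), .ne) := by
  classical
  obtain ⟨⟨x, y⟩, q⟩ := σ
  cases q
  all_goals
    simp only [step] at h ⊢
  · split_ifs at h with hc
    · simp only [Prod.mk.injEq] at h; omega
    · simp only [Prod.mk.injEq] at h; omega
  · split_ifs at h ⊢ with hc
    · rfl
    · simp only [Prod.mk.injEq] at h; omega
  · split_ifs at h with hc
    · simp only [Prod.mk.injEq] at h; omega
    · simp only [Prod.mk.injEq] at h; omega
  · split_ifs at h with hc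
    · simp only [Prod.mk.injEq] at h; omega
    · simp only [Prod.mk.injEq] at h; omega

/-- Finitely many states in a box. -/
theorem box_finite (R : ℤ) : {σ : St | sd σ.1 (0, 0) < R}.Finite := by
  have h : {σ : St | sd σ.1 (0, 0) < R} ⊆
      (↑((Finset.Icc (-R) R ×ˢ Finset.Icc (-R) R) ×ˢ (Finset.univ : Finset Q4)) : Set St) := by
    intro σ hσ
    have h1 : sd σ.1 (0, 0) < R := hσ
    rw [Ret_sd, max_lt_iff, abs_lt, abs_lt] at h1
    simp only [Finset.coe_product, Finset.coe_univ, Set.mem_prod, Finset.mem_coe, Finset.mem_Icc,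
      Set.mem_univ, and_true]
    omega
  exact (Finset.finite_toSet _).subset h

theorem times_finite (ω : Conf) (R : ℤ) : {k : ℕ | sd (path ω k).1 (0, 0) < R}.Finite := by
  have h : Set.InjOn (path ω) {k : ℕ | sd (path ω k).1 (0, 0) < R} := by
    intro i _ j _ hij
    by_contra hne
    exact path_inj ω hne hij
  exact Set.Finite.of_finite_image ((box_finite R).subset (by
    rintro _ ⟨k, hk, rfl⟩
    exact hk)) h

/-- The last time in the cluster of the half-box. -/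
theorem last_exit (ω : Conf) {r R : ℤ} (hr : 0 ≤ r) (hrR : r < R)
    (hS : ∀ v ∈ Ret_S ω r, sd v (0, 0) < R) : ∃ (k : ℕ) (x : ℤ), x < 0 ∧
      ((x + 1, 0) : Vtx) ∈ Ret_S ω r ∧ ((x, 0) : Vtx) ∈ Ret_T ω r R ∧
      path ω (k + 1) = ((x, 0), .ne) ∧ ∀ n, (path ω (k + 1 + n)).1 ∉ Ret_S ω r := by
  have hfin : {k : ℕ | (path ω k).1 ∈ Ret_S ω r}.Finite :=
    (times_finite ω R).subset fun k hk => hS _ hk
  have hne : {k : ℕ | (path ω k).1 ∈ Ret_S ω r}.Nonempty := by
    refine ⟨0, ⟨(0, 0), ?_, le_rfl, Reach.refl _ _⟩⟩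
    rw [Ret_sd]
    simpa using hr
  obtain ⟨k, hkm⟩ := hfin.toFinset.exists_maximal (by
    obtain ⟨k, hk⟩ := hne
    exact ⟨k, hfin.mem_toFinset.2 hk⟩)
  have hk : (path ω k).1 ∈ Ret_S ω r := hfin.mem_toFinset.1 hkm.1
  have hmax : ∀ j, k < j → (path ω j).1 ∉ Ret_S ω r := by
    intro j hj hcon
    have := hkm.2 (hfin.mem_toFinset.2 hcon) hj.le
    omega
  have hlast : ∀ n, (path ω (k + 1 + n)).1 ∉ Ret_S ω r := fun n => hmax _ (by omega)
  -- far away
  obtain ⟨m, hm⟩ : ∃ m : ℕ, R ≤ sd (path ω (k + 1 + m)).1 (0, 0) := by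
    by_contra hcon
    push Not at hcon
    have h1 : Set.Infinite {j : ℕ | k + 1 ≤ j} := Set.infinite_of_injective_forall_mem
      (f := fun n : ℕ => k + 1 + n) (fun a b h => by simpa using h)
      (fun n => by show k + 1 ≤ k + 1 + n; omega)
    refine h1 ((times_finite ω R).subset fun j hj => ?_)
    have hj' : k + 1 ≤ j := hj
    obtain ⟨n, rfl⟩ := Nat.exists_eq_add_of_le hj'
    exact hcon n
  have hreach : ∀ n, Reach {e | 0 ≤ e.2.1 ∧ src e ∉ Ret_S ω r ∧ tgt e ∉ Ret_S ω r}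
      (path ω (k + 1)).1 (path ω (k + 1 + n)).1 := by
    intro n
    induction n with
    | zero => exact Reach.refl _ _
    | succ n ih =>
      refine ih.trans ?_
      have hs : path ω (k + 1 + (n + 1)) = step (opn ω) (path ω (k + 1 + n)) := rfl
      have g1 := hlast n
      have g2 := hlast (n + 1)
      rw [hs] at g2 ⊢
      rcases Ret_step_cases (opn ω) (path ω (k + 1 + n)) with h | ⟨e, he, hc, -⟩
      · rw [h]; exact Reach.refl _ _
      · refine Adj.reach ⟨e, ⟨Step_opn he, ?_, ?_⟩, hc⟩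
        · rcases hc with ⟨h1, -⟩ | ⟨h1, -⟩
          · rw [h1]; exact g1
          · rw [h1]; exact g2
        · rcases hc with ⟨-, h1⟩ | ⟨-, h1⟩
          · rw [h1]; exact g2
          · rw [h1]; exact g1
  have hT : (path ω (k + 1)).1 ∈ Ret_T ω r R :=
    ⟨path_nonneg ω _, hlast 0, _, hm, hreach m⟩
  have hs : path ω (k + 1) = step (opn ω) (path ω k) := rfl
  rcases Ret_step_cases (opn ω) (path ω k) with h | ⟨e, he, hc, -⟩
  · exact absurd (by rw [hs, h]; exact hk) (hlast 0)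
  obtain ⟨⟨x, y, b⟩, hE⟩ : ∃ e' : Edg, e' = e := ⟨e, rfl⟩
  rcases he with ⟨h1, h2, h3⟩ | he
  · rw [← hE] at h1 h2 h3 hc
    simp only at h1 h2 h3
    subst h1
    subst h2
    rw [src_mk, tgt_true, ← hs] at hc
    rcases hc with ⟨h4, h5⟩ | ⟨h4, h5⟩
    · exfalso
      rw [← h4] at hk
      rw [← h5] at hT
      exact planar2 hr hrR hS (by
        have : ((x + 1, 0) : Vtx) ∉ Ret_S ω r := hT.2.1
        by_contra hx
        have hx0 : x + 1 = 0 := by omega
        apply this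
        rw [hx0]
        refine ⟨(0, 0), ?_, le_rfl, Reach.refl _ _⟩
        rw [Ret_sd]
        simpa using hr) (by omega) hk hT
    · refine ⟨k, x, h3, ?_, ?_, ?_, hlast⟩
      · rw [h5]; exact hk
      · rw [h4]; exact hT
      · have h6 := step_west (opn ω) (path ω k) (by
          rw [← hs, ← h4, ← h5]
          simp)
        rw [hs, h6, ← h5]
        simp
  · exact absurd (Ret_S_closed hk ⟨e, he, by rw [hs]; exact hc⟩) (hlast 0)

/-- The path forgets the configuration of a finite box up to a shift of time. -/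
theorem tail_eq {ω ω' : Conf} {r R : ℤ} (hr : 0 ≤ r) (hrR : r < R) (hA : Agree r ω ω')
    (hS : ∀ v ∈ Ret_S ω r, sd v (0, 0) < R) : ∃ k k' : ℕ, ∀ n, path ω (k + n) = path ω' (k' + n) := by
  obtain ⟨k, x, hx, h1, h2, h3, h4⟩ := last_exit ω hr hrR hS
  obtain ⟨k', x', hx', h1', h2', h3', h4'⟩ := last_exit ω' hr hrR (by
    rw [← retS_eq hA]; exact hS)
  rw [← retS_eq hA] at h1'
  rw [← retT_eq hA] at h2'
  have hxx : x = x' := by
    rcases lt_trichotomy x x' with h | h | h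
    · exfalso
      have hne : x + 1 ≠ x' := by
        intro he
        rw [he] at h1
        exact h2'.2.1 h1
      exact planar2 hr hrR hS hx' (by omega : x + 1 < x') h1 h2'
    · exact h
    · exfalso
      have hne : x' + 1 ≠ x := by
        intro he
        rw [he] at h1'
        exact h2.2.1 h1'
      exact planar2 hr hrR hS hx (by omega : x' + 1 < x) h1' h2
  subst hxx
  refine ⟨k + 1, k' + 1, fun n => ?_⟩
  induction n with
  | zero => rw [add_zero, add_zero, h3, h3']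
  | succ n ih =>
    have e1 : path ω (k + 1 + (n + 1)) = step (opn ω) (path ω (k + 1 + n)) := rfl
    have e2 : path ω' (k' + 1 + (n + 1)) = step (opn ω') (path ω' (k' + 1 + n)) := rfl
    rw [e1, e2, ← ih]
    apply step_congr
    intro e he
    have hv := h4 n
    have hnb : ¬ sd (path ω (k + 1 + n)).1 (0, 0) ≤ r := fun hcon =>
      hv ⟨_, hcon, path_nonneg ω _, Reach.refl _ _⟩
    have hin : ¬ InB r e := by
      rintro ⟨g1, g2⟩
      rcases he with he | he
      · rw [he] at g1; exact hnb g1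
      · rw [he] at g2; exact hnb g2
    have := hA e hin
    unfold opn
    simp only [Set.mem_ofPred_eq]
    rw [this]

end Pool.Agent.Q289.EC
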