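import Pool.Agent.Q289.EC.Shift
import Pool.Agent.H984R4.HN.Perc

/-!
The zero-one law for the exploration path of the half-plane.
-/

set_option autoImplicit false

namespace Pool.Agent.Q289.EC

open H974 Finset H342P H984P H984H MeasureTheory Filter Topology ProbabilityTheory

/-- Almost surely the clusters of the half-boxes off the axis are bounded. -/
theorem ae_bdd : ∀ᵐ ω ∂perc, ∀ r : ℕ, ∃ R : ℤ, (r : ℤ) < R ∧
    ∀ v ∈ Ret_S ω r, sd v (0, 0) < R := by
  obtain ⟨κ, hκ, hW⟩ := H12S.win_half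
  obtain ⟨C, c, hC, hc, harm⟩ := H12S.win_arm_of
    (fun h _ h1 h2 => fun c1 c2 S => H12S.win_blk h h1 h2 c1 c2 S) κ hκ
  rw [ae_all_iff]
  intro r0
  obtain ⟨r, hr⟩ : ∃ r : ℕ, r = r0 + 1 := ⟨_, rfl⟩
  have hr1 : 1 ≤ r := by omega
  have hsub : ∀ ω, Ret_S ω r0 ⊆ Ret_S ω r := by
    rintro ω v ⟨u, h1, h2, h3⟩
    exact ⟨u, h1.trans (by rw [hr]; push_cast; omega), h2, h3⟩
  have hz : perc {ω | ¬ ∃ R : ℤ, (r : ℤ) < R ∧ ∀ v ∈ Ret_S ω r, sd v (0, 0) < R} = 0 := by
    have hb : ∀ R : ℕ, r < R → perc.real {ω | ¬ ∃ R : ℤ, (r : ℤ) < R ∧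
        ∀ v ∈ Ret_S ω r, sd v (0, 0) < R} ≤ C * ((r : ℝ) / R) ^ c := by
      intro R hrR
      have h1 : perc.real {ω | ¬ ∃ R : ℤ, (r : ℤ) < R ∧ ∀ v ∈ Ret_S ω r, sd v (0, 0) < R} ≤
          perc.real {ω | H12S.Crs 0 0 r R (↑(cut ω R) : Set Edg)} := by
        apply measureReal_mono
        · intro ω hω
          have hω' : ¬ ∃ R : ℤ, (r : ℤ) < R ∧ ∀ v ∈ Ret_S ω r, sd v (0, 0) < R := hω
          push Not at hω'
          obtain ⟨v, hv, hv2⟩ := hω' (R : ℤ) (by exact_mod_cast hrR)
          exact Ret_arm ω hrR hv hv2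
        · exact measure_ne_top _ _
      refine h1.trans ?_
      rw [perc_cut (R : ℤ) (fun F => H12S.Crs 0 0 r R (↑F : Set Edg))]
      exact (harm (1/2) R (hW R) r R hr1 hrR.le le_rfl 0 0 (bx R).edges).1
    have hlim : Tendsto (fun R : ℕ => C * ((r : ℝ) / R) ^ c) atTop (𝓝 0) := by
      have h1 : Tendsto (fun R : ℕ => (r : ℝ) / R) atTop (𝓝 0) :=
        tendsto_const_div_atTop_nhds_zero_nat _
      have h2 := (h1.rpow_const (p := c) (Or.inr hc.le)).const_mul C
      rw [Real.zero_rpow hc.ne', mul_zero] at h2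
      exact h2
    have h0 : perc.real {ω | ¬ ∃ R : ℤ, (r : ℤ) < R ∧ ∀ v ∈ Ret_S ω r, sd v (0, 0) < R} ≤ 0 := by
      refine ge_of_tendsto hlim ?_
      filter_upwards [eventually_gt_atTop r] with R hR
      exact hb R hR
    have h3 := le_antisymm h0 measureReal_nonneg
    rwa [measureReal_eq_zero_iff] at h3
  have h4 : ∀ᵐ ω ∂perc, ∃ R : ℤ, (r : ℤ) < R ∧ ∀ v ∈ Ret_S ω r, sd v (0, 0) < R := by
    rw [ae_iff]; exact hz
  filter_upwards [h4] with ω hω
  obtain ⟨R, h1, h2⟩ := hω
  refine ⟨R, ?_, fun v hv => h2 v (hsub ω hv)⟩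
  rw [hr] at h1
  push_cast at h1
  omega

open Classical in
/-- Close all the edges of the box. -/
noncomputable def clr (r : ℕ) (ω : Conf) : Conf := fun e => if InB r e then false else ω e

theorem clr_agree (r : ℕ) (ω : Conf) : Agree r ω (clr r ω) := by
  classical
  intro e he
  unfold clr
  rw [if_neg he]

/-- The coin of an edge. -/
@[reducible] def cm (e : Edg) : MeasurableSpace Conf :=
  MeasurableSpace.comap (fun ω : Conf => ω e) inferInstance

theorem cm_le (e : Edg) : cm e ≤ (inferInstance : MeasurableSpace Conf) := by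
  rw [← measurable_iff_comap_le]
  exact measurable_pi_apply e

theorem cm_indep : iIndep cm perc := by
  have h : iIndepFun (fun (e : Edg) (ω : Conf) => ω e) perc :=
    iIndepFun_infinitePi (X := fun _ ω => ω) (by fun_prop)
  exact h

theorem clr_meas (r : ℕ) : Measurable[⨆ e ∈ {e : Edg | InB r e}ᶜ, cm e] (clr r) := by
  classical
  rw [@measurable_pi_iff]
  intro e
  by_cases h : InB r e
  · have : (fun ω : Conf => clr r ω e) = fun _ => false := by
      ext ω
      unfold clr
      rw [if_pos h]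
    rw [this]
    exact @measurable_const _ _ _ (_) _
  · have : (fun ω : Conf => clr r ω e) = fun ω => ω e := by
      ext ω
      unfold clr
      rw [if_neg h]
    rw [this]
    have h1 : cm e ≤ ⨆ e ∈ {e : Edg | InB r e}ᶜ, cm e :=
      le_iSup₂_of_le e h le_rfl
    exact Measurable.mono (comap_measurable _) h1 le_rfl

/-- The abstract zero-one law. -/
theorem zero_one_of {A : Set Conf} (hAm : MeasurableSet A)
    (hA : ∀ r : ℕ, ∀ᵐ ω ∂perc, (ω ∈ A ↔ clr r ω ∈ A)) : perc A = 0 ∨ perc A = 1 := by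
  -- independence of the cylinder sets
  have key : ∀ s ∈ measurableCylinders (fun _ : Edg => Bool), perc (A ∩ s) = perc A * perc s := by
    intro s hs
    obtain ⟨I, S, hS, rfl⟩ := (mem_measurableCylinders _).1 hs
    obtain ⟨r, hr⟩ : ∃ r : ℕ, ∀ e ∈ I, InB r e := by
      have : ∀ e : Edg, ∃ r : ℕ, ∀ r' : ℕ, r ≤ r' → InB r' e := by
        intro e
        refine ⟨(sd (src e) (0, 0) + sd (tgt e) (0, 0)).toNat, fun r' hr' => ?_⟩
        have h1 : 0 ≤ sd (src e) (0, 0) := by unfold sd; positivity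
        have h2 : 0 ≤ sd (tgt e) (0, 0) := by unfold sd; positivity
        unfold InB
        omega
      choose f hf using this
      exact ⟨I.sup f, fun e he => hf e _ (Finset.le_sup he)⟩
    have hind : Indep (⨆ e ∈ {e : Edg | InB r e}ᶜ, cm e) (⨆ e ∈ {e : Edg | InB r e}, cm e) perc :=
      indep_iSup_of_disjoint cm_le cm_indep disjoint_compl_left
    have hAr : MeasurableSet[⨆ e ∈ {e : Edg | InB r e}ᶜ, cm e] (clr r ⁻¹' A) := clr_meas r hAm
    have hsr : MeasurableSet[⨆ e ∈ {e : Edg | InB r e}, cm e] (cylinder I S) := by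
      have h1 : Measurable[⨆ e ∈ {e : Edg | InB r e}, cm e]
          (I.restrict : Conf → (∀ i : I, Bool)) := by
        rw [@measurable_pi_iff]
        intro i
        have h2 : cm (i : Edg) ≤ ⨆ e ∈ {e : Edg | InB r e}, cm e :=
          le_iSup₂_of_le (i : Edg) (hr i i.2) le_rfl
        exact Measurable.mono (comap_measurable _) h2 le_rfl
      exact h1 hS
    have h3 := (Indep_iff _ _ _).1 hind _ _ hAr hsr
    have h4 : perc (clr r ⁻¹' A) = perc A := by
      apply measure_congr
      filter_upwards [hA r] with ω hω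
      exact propext hω.symm
    have h5 : perc (clr r ⁻¹' A ∩ cylinder I S) = perc (A ∩ cylinder I S) := by
      apply measure_congr
      filter_upwards [hA r] with ω hω
      apply propext
      show (clr r ω ∈ A ∧ ω ∈ cylinder I S) ↔ (ω ∈ A ∧ ω ∈ cylinder I S)
      rw [hω]
    rw [← h5, h3, h4]
  have hext : perc.restrict A = perc A • perc := by
    have i1 : IsFiniteMeasure (perc A • perc) := Measure.smul_finite _ (measure_ne_top _ _)
    refine ext_of_generate_finite _ generateFrom_measurableCylinders.symm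
      isPiSystem_measurableCylinders ?_ ?_
    · intro s hs
      rw [Measure.restrict_apply' hAm, Set.inter_comm, key s hs, Measure.smul_apply, smul_eq_mul]
    · rw [Measure.restrict_apply_univ, Measure.smul_apply, measure_univ, smul_eq_mul, mul_one]
  have h6 := congrArg (fun ν : Measure Conf => ν A) hext
  rw [Measure.restrict_apply hAm, Set.inter_self, Measure.smul_apply, smul_eq_mul] at h6
  by_cases h : perc A = 0
  · exact Or.inl h
  · right
    have h2 : perc A * 1 = perc A * perc A := by rw [mul_one]; exact h6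
    exact ((ENNReal.mul_right_inj h (measure_ne_top perc A)).1 h2).symm

/-- Sets of sequences which do not depend on the beginning and on the time scale. -/
def Inv (E : Set (ℕ → St)) : Prop :=
  ∀ σ σ' : ℕ → St, (∃ k k' : ℕ, ∀ n, σ (k + n) = σ' (k' + n)) → σ ∈ E → σ' ∈ E

/-- The zero-one law for the path. -/
theorem zero_one_path {E : Set (ℕ → St)} (hE : Inv E) (hm : MeasurableSet {ω | path ω ∈ E}) :
    perc {ω | path ω ∈ E} = 0 ∨ perc {ω | path ω ∈ E} = 1 := by
  apply zero_one_of hm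
  intro r
  filter_upwards [ae_bdd] with ω hω
  obtain ⟨R, h1, h2⟩ := hω r
  obtain ⟨k, k', h3⟩ := tail_eq (r := r) (R := R) (by positivity) h1 (clr_agree r ω) h2
  show path ω ∈ E ↔ path (clr r ω) ∈ E
  exact ⟨hE _ _ ⟨k, k', h3⟩, hE _ _ ⟨k', k, fun n => (h3 n).symm⟩⟩

end Pool.Agent.Q289.EC
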